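import Pool.Agent.H.MP_718c62_al.A

set_option autoImplicit false

namespace Pool.Agent.PowPd

open Pool.Agent.PdOne Pool.Agent.PdFun MvPolynomial Finset

section alg
variable {σ : Type} (k : Type) [Field k]

/-- The colon of a monomial ideal by a monomial. -/
noncomputable def CI (G : Set (σ →₀ ℕ)) (m : σ →₀ ℕ) : Ideal (MvPolynomial σ k) :=
  Ideal.span ((fun s => monomial s (1 : k)) '' ((· - m) '' G))

/-- The invariant of the mapping cone game. -/
def P (N : ℕ) (I : Ideal (MvPolynomial σ k)) (t : ℕ) : Prop :=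
  I = ⊤ ∨ ∃ a, a + t ≤ N ∧ PD (MvPolynomial σ k) I a

variable {k}

lemma colon [DecidableEq σ] (G : Set (σ →₀ ℕ)) (m g : σ →₀ ℕ) (c : MvPolynomial σ k) :
    c ∈ CI k G (m ⊔ g) ↔ c * monomial (g - m) 1 ∈ CI k G m := by
  have e : ∀ u a : σ →₀ ℕ, u - m ≤ a + (g - m) ↔ u - (m ⊔ g) ≤ a := fun u a =>
    forall_congr' fun v => by
      simp only [Finsupp.coe_tsub, Pi.sub_apply, Finsupp.coe_add, Pi.add_apply, Finsupp.sup_apply]
      omega
  simp only [CI, mem_ideal_span_monomial_image, Set.exists_mem_image]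
  refine ⟨fun h a ha => ?_, fun h a ha => ?_⟩
  · obtain ⟨b, hb, c, hc, rfl⟩ := supp_mul ha
    obtain rfl := Finset.mem_singleton.1 (support_monomial_subset hc)
    obtain ⟨u, hu, h1⟩ := h b hb
    exact ⟨u, hu, (e u b).2 h1⟩
  · obtain ⟨u, hu, h1⟩ := h _ (supp_mul_mono.2 ha)
    exact ⟨u, hu, (e u a).1 h1⟩

lemma P.step [DecidableEq σ] {N t : ℕ} {G : Set (σ →₀ ℕ)} {m g : σ →₀ ℕ}
    (h1 : P k N (CI k G (m ⊔ g)) (t + 1)) (h2 : P k N (CI k G m) t) :
    P k N (CI k (insert g G) m) t := by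
  have e : CI k (insert g G) m = CI k G m ⊔ Ideal.span {monomial (g - m) 1} := by
    rw [CI, CI, Set.image_insert_eq, Set.image_insert_eq, Ideal.span_insert, sup_comm]
  rw [e]
  rcases h1 with h1 | ⟨a, h1, h3⟩
  · have := (colon G m g 1).1 (h1 ▸ Submodule.mem_top)
    rwa [sup_eq_left.2 ((Ideal.span_singleton_le_iff_mem _).2 (by simpa using this))]
  rcases h2 with h2 | ⟨b, h2, h4⟩
  · exact .inl (by rw [h2, top_sup_eq])
  exact .inr ⟨N - t - 1 + 1, by omega,
    pd_up' _ _ _ (colon G m g) (h3.mono (by omega)) (h4.mono (by omega))⟩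

lemma game [DecidableEq σ] {ι : Type} [DecidableEq ι] (w : ι → σ →₀ ℕ) (N : ℕ)
    (G : Set (σ →₀ ℕ)) (A : Finset ι) : ∀ m t,
    (∀ T ⊆ A, P k N (CI k G (m ⊔ T.sup w)) (t + #T)) → P k N (CI k (w '' A ∪ G) m) t := by
  induction A using Finset.induction_on with
  | empty => exact fun m t h => by simpa using h ∅ (by simp)
  | insert a A ha ih =>
    intro m t h
    rw [coe_insert, Set.image_insert_eq, Set.insert_union]
    refine P.step (ih _ _ fun T hT => ?_) (ih _ _ fun T hT => h T (hT.trans (subset_insert _ _)))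
    have := h (insert a T) (insert_subset_insert _ hT)
    rwa [sup_insert, ← sup_assoc, card_insert_of_notMem fun h => ha (hT h), add_comm #T,
      ← add_assoc] at this

lemma leaf [DecidableEq σ] {ι : Type} [DecidableEq ι] (w : ι → σ →₀ ℕ) (N : ℕ) (A : Finset ι)
    (m : σ →₀ ℕ) (t : ℕ) (h : (∀ a ∈ A, ¬ w a ≤ m) → t + #A ≤ N) :
    P k N (CI k (w '' A) m) t := by
  by_cases h1 : ∀ a ∈ A, ¬ w a ≤ m
  · rw [← Set.union_empty (w '' A)]
    refine game w N ∅ A m t fun T hT => .inr ⟨0, ?_, ?_⟩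
    · have := card_le_card hT
      have := h h1
      omega
    · rw [show CI k ∅ _ = ⊥ by simp [CI]]
      exact pd_zero
  · push Not at h1
    obtain ⟨a, ha, h1⟩ := h1
    refine .inl ((Ideal.eq_top_iff_one _).2 (Ideal.subset_span ⟨_, ⟨_, ⟨a, ha, rfl⟩, rfl⟩, ?_⟩))
    simp [tsub_eq_zero_of_le h1]
end alg

section comb
variable {α : Type} [Fintype α] [DecidableEq α]

lemma ext_card {Y Z : Finset α} (h : Y ⊆ Z) {F : Finset (Finset α)}
    (hF : ∀ y ∉ Z, insert y Y ∈ F) : Fintype.card α - #Z ≤ #F := by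
  rw [← card_compl]
  refine card_le_card_of_injOn (fun y => insert y Y) (fun y hy => hF y (by simpa using hy))
    fun y hy y' _ h1 => ?_
  have h2 : y ∈ insert y' Y := by
    beta_reduce at h1
    rw [← h1]
    exact mem_insert_self _ _
  exact (mem_insert.1 h2).resolve_right fun h3 => by simp [h h3] at hy

lemma cnt1 {s : ℕ} (hs : s ≤ Fintype.card α) (T : Finset (Fin (s + 1) → α))
    (hT : ∀ f ∈ T, ¬ Function.Injective f) :
    #T * (Fintype.card α - s) ≤
      #{c ∈ powersetCard (s + 1) univ | ∃ f ∈ T, ∀ i, f i ∈ c} * (s + 1) ^ (s + 1) := by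
  refine card_mul_le_card_mul (fun f c => ∀ i, f i ∈ c) (fun f hf => ?_) fun c hc => ?_
  · have h1 : #(univ.image f) ≤ s := by
      have h2 := card_image_le (s := univ) (f := f)
      have h3 : #(univ.image f) ≠ #(univ : Finset (Fin (s + 1))) :=
        fun h => hT f hf (Set.injOn_univ.1 (by simpa using card_image_iff.1 h))
      rw [card_fin] at h2 h3
      omega
    obtain ⟨Y, h2, -, h3⟩ := exists_subsuperset_card_eq (subset_univ _) h1 hs
    refine le_trans (by rw [h3]) (ext_card (Y := Y) subset_rfl fun y hy => ?_)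
    have h4 : ∀ i, f i ∈ insert y Y := fun i => mem_insert_of_mem (h2 (by simp))
    simp only [bipartiteAbove, mem_filter, mem_powersetCard_univ]
    exact ⟨⟨by rw [card_insert_of_notMem hy, h3], f, hf, h4⟩, h4⟩
  · refine (card_le_card (t := Fintype.piFinset fun _ => c) fun f hf => ?_).trans ?_
    · exact Fintype.mem_piFinset.2 (mem_filter.1 hf).2
    · simp [mem_powersetCard_univ.1 (mem_filter.1 hc).1]

lemma cnt2 [AddCommGroup α] {r : ℕ} {t : α} {C D : Finset (Finset α)}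
    (hC : ∀ c ∈ C, #c = r ∧ ∑ j ∈ c, j = t) (hD : ∀ d ∈ D, #d = r)
    (h : ∀ c ∈ C, ∃ i ∈ c, ∀ d, #d = r → c.erase i ⊆ d → ∑ j ∈ d, j ≠ t → d ∈ D) :
    #C * (Fintype.card α - r) ≤ #D * 2 ^ r := by
  choose! i hi h using h
  refine card_mul_le_card_mul (fun c d => c.erase (i c) ⊆ d) (fun c hc => ?_) fun d hd => ?_
  · rw [← (hC c hc).1]
    refine ext_card (erase_subset (i c) c) fun y hy => ?_
    have h1 : y ∉ c.erase (i c) := fun h => hy (mem_of_mem_erase h)
    refine mem_filter.2 ⟨h c hc _ ?_ (subset_insert _ _) fun h2 => ?_, subset_insert _ _⟩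
    · rw [card_insert_of_notMem h1, card_erase_add_one (hi c hc), (hC c hc).1]
    · rw [sum_insert h1, ← (hC c hc).2, ← add_sum_erase c _ (hi c hc), add_left_inj] at h2
      exact hy (h2 ▸ hi c hc)
  · rw [← hD d hd, ← card_powerset]
    refine card_le_card_of_injOn (fun c => c.erase (i c))
      (fun c hc => mem_coe.2 (mem_powerset.2 (mem_filter.1 hc).2)) fun c hc c' hc' h1 => ?_
    have hc := (mem_filter.1 hc).1
    have hc' := (mem_filter.1 hc').1
    have h2 := (hC c hc).2.trans (hC c' hc').2.symm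
    beta_reduce at h1
    rw [← add_sum_erase c _ (hi c hc), ← add_sum_erase c' _ (hi c' hc'), h1, add_left_inj] at h2
    rw [← insert_erase (hi c hc), h1, h2, insert_erase (hi c' hc')]

lemma reserve [AddCommGroup α] {s : ℕ}
    (hs : 2 * (s + 1) + 2 * ((s + 1) ^ (s + 1) * 2 ^ (s + 1)) ≤ Fintype.card α)
    (T : Finset (Fin (s + 1) → α)) (hT : ∀ f ∈ T, ¬ Function.Injective f) :
    ∃ C ⊆ powersetCard (s + 1) univ, (∀ c ∈ C, ∃ f ∈ T, ∀ i, f i ∈ c) ∧
      ∀ T' ⊆ powersetCard (s + 1) univ \ C, (∀ c ∈ C, ∃ i ∈ c, ∀ d ∈ T', ¬ c.erase i ⊆ d) →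
        #T + #T' + #C ≤ (Fintype.card α).choose (s + 1) := by
  have h1 := cnt1 (by omega) T hT
  set U := {c ∈ powersetCard (s + 1) (univ : Finset α) | ∃ f ∈ T, ∀ i, f i ∈ c}
  obtain ⟨t, -, ht⟩ := exists_max_image univ (fun t : α => #{c ∈ U | ∑ j ∈ c, j = t}) univ_nonempty
  set C := {c ∈ U | ∑ j ∈ c, j = t}
  have h2 : #U ≤ Fintype.card α * #C := by
    rw [card_eq_sum_card_fiberwise (f := fun c => ∑ j ∈ c, j) (t := univ) fun _ _ => by simp]
    exact sum_le_card_nsmul _ _ _ ht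
  have h3 : C ⊆ powersetCard (s + 1) univ := (filter_subset _ _).trans (filter_subset _ _)
  refine ⟨C, h3, fun c hc => (mem_filter.1 (mem_filter.1 hc).1).2, fun T' hT' h => ?_⟩
  have h4 := cnt2 (C := C) (D := (powersetCard (s + 1) univ \ C) \ T')
    (fun c hc => ⟨mem_powersetCard_univ.1 (h3 hc), (mem_filter.1 hc).2⟩)
    (fun d hd => mem_powersetCard_univ.1 (mem_sdiff.1 (mem_sdiff.1 hd).1).1) fun c hc => by
      obtain ⟨i, hi, h5⟩ := h c hc
      exact ⟨i, hi, fun d h6 h7 h8 => mem_sdiff.2 ⟨mem_sdiff.2 ⟨mem_powersetCard_univ.2 h6,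
        fun h => h8 (mem_filter.1 h).2⟩, fun h => h5 d h h7⟩⟩
  have h5 := card_sdiff_add_card_eq_card hT'
  have h6 := card_sdiff_add_card_eq_card h3
  rw [card_powersetCard, card_univ] at h6
  suffices #T ≤ #((powersetCard (s + 1) univ \ C) \ T') by omega
  generalize #((powersetCard (s + 1) univ \ C) \ T') = d at h4
  generalize (s + 1) ^ (s + 1) = a at *
  generalize 2 ^ (s + 1) = b at *
  obtain ⟨p, hp⟩ : ∃ p, Fintype.card α = p + (s + 1) := ⟨_, (Nat.sub_add_cancel (by omega)).symm⟩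
  rw [hp] at h1 h2 h4 hs
  rw [Nat.add_sub_cancel] at h4
  have h7 : #T * p ≤ #U * a := le_trans (Nat.mul_le_mul_left _ (by omega)) h1
  refine Nat.le_of_mul_le_mul_right (c := p * p) ?_ (Nat.mul_pos (by omega) (by omega))
  calc #T * (p * p) = #T * p * p := by ring
    _ ≤ (p + (s + 1)) * #C * a * p :=
      Nat.mul_le_mul_right _ (h7.trans (Nat.mul_le_mul_right _ h2))
    _ = (p + (s + 1)) * a * (#C * p) := by ring
    _ ≤ (2 * p) * a * (d * b) := by gcongr; omega
    _ = d * (p * (2 * (a * b))) := by ring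
    _ ≤ d * (p * p) := by gcongr; omega
end comb

end Pool.Agent.PowPd
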